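import Pool.Agent.Helper78_NDM.Stmts

/-!
# NDM, module DBL: doubling of the jets
-/

set_option autoImplicit false
set_option linter.unusedVariables false
set_option linter.unusedSectionVars false

namespace Pool.Agent.NDM.H88

open PowerSeries Finset Pool.Agent.Helper6_Mono Pool.Agent.Helper32_OMP

section lin

variable {k : Type} [Field k] {σ : Type} [Fintype σ] [DecidableEq σ] {A : Type*} [AddCommGroup A]
  [Module k A]

/-- the two components are mixed by the projection `p` -/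
def mix (p : Matrix σ σ k) (a b : σ → A) : σ → A :=
  fun l => lf (p l) a + lf ((1 - p) l) b

theorem lf_mix (c : σ → k) (p : Matrix σ σ k) (a b : σ → A) :
    lf c (mix p a b) = lf (Matrix.vecMul c p) a + lf (Matrix.vecMul c (1 - p)) b := by
  unfold mix lf
  simp only [smul_add, Finset.sum_add_distrib, Finset.smul_sum, Matrix.vecMul, dotProduct,
    Finset.sum_smul, smul_smul]
  rw [Finset.sum_comm, Finset.sum_comm (f := fun x i => (c x * (1 - p) x i) • b i)]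

theorem lf_zero (a : σ → A) : lf (0 : σ → k) a = 0 := by
  unfold lf
  simp

theorem lf_add_left (c d : σ → k) (a : σ → A) : lf (c + d) a = lf c a + lf d a := by
  unfold lf
  simp [add_smul, Finset.sum_add_distrib]

theorem lf_one (l : σ) (a : σ → A) : lf ((1 : Matrix σ σ k) l) a = a l := by
  unfold lf
  simp [Matrix.one_apply]

theorem mix_mix {p : Matrix σ σ k} (hp : p * p = p) (a b : σ → A) :
    mix p (mix p a b) (mix p b a) = a := by
  funext l
  have h1 : ∀ q r : Matrix σ σ k, Matrix.vecMul (q l) r = (q * r) l := by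
    intro q r
    funext j
    rfl
  have h2 : p * (1 - p) = 0 := by rw [mul_sub, mul_one, hp, sub_self]
  have h3 : (1 - p) * p = 0 := by rw [sub_mul, one_mul, hp, sub_self]
  have h4 : (1 - p) * (1 - p) = 1 - p := by rw [mul_sub, mul_one, h3, sub_zero]
  show lf (p l) (mix p a b) + lf ((1 - p) l) (mix p b a) = a l
  rw [lf_mix, lf_mix, h1, h1, h1, h1, hp, h2, h3, h4]
  have h5 : lf ((0 : Matrix σ σ k) l) b = 0 := lf_zero b
  rw [h5, add_zero, zero_add, ← lf_add_left]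
  have h6 : p l + (1 - p) l = (1 : Matrix σ σ k) l := by
    funext j
    simp
  rw [h6, lf_one]

theorem lf_mix_left {c : σ → k} {p : Matrix σ σ k} (h : Matrix.vecMul c p = c) (a b : σ → A) :
    lf c (mix p a b) = lf c a := by
  rw [lf_mix, h, Matrix.vecMul_sub, Matrix.vecMul_one, h, sub_self, lf_zero, add_zero]

theorem lf_mix_right {c : σ → k} {p : Matrix σ σ k} (h : Matrix.vecMul c p = 0) (a b : σ → A) :
    lf c (mix p b a) = lf c a := by
  rw [lf_mix, h, Matrix.vecMul_sub, Matrix.vecMul_one, h, sub_zero, lf_zero, zero_add]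

end lin

section ser

variable {k : Type} [Field k] {σ ι : Type} [Fintype σ] [DecidableEq σ]

theorem mix_tw {S S' : Type} [CommRing S] [Algebra k S] [CommRing S'] [Algebra k S']
    (p : Matrix σ σ k) (θ ω : QZ) (φ : S →ₐ[k] S') (c : Chr QZ S') (a b : σ → S⟦X⟧) :
    mix p (fun l => C (chr c θ) * twS ω φ c (a l)) (fun l => C (chr c θ) * twS ω φ c (b l))
      = fun l => C (chr c θ) * twS ω φ c (mix p a b l) := by
  funext l
  unfold mix
  rw [lf_tw, lf_tw, map_add, mul_add]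

theorem pp_union {S : Type} [CommRing S] [Algebra k S] [DecidableEq ι] (L : ι → σ → k) (m : ι → ℕ)
    {A B : Finset ι} (hAB : Disjoint A B) {p : Matrix σ σ k}
    (hA : ∀ i ∈ A, Matrix.vecMul (L i) p = L i) (hB : ∀ i ∈ B, Matrix.vecMul (L i) p = 0)
    (a b : σ → S⟦X⟧) :
    pp L m A (mix p a b) * pp L m B (mix p b a) = pp L m (A ∪ B) a := by
  unfold pp
  rw [Finset.prod_union hAB]
  congr 1
  · exact Finset.prod_congr rfl fun i hi => by rw [lf_mix_left (hA i hi)]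
  · exact Finset.prod_congr rfl fun i hi => by rw [lf_mix_right (hB i hi)]

theorem mix_coeff {S : Type} [CommRing S] [Algebra k S] {D : ℕ → Prop} (p : Matrix σ σ k)
    {a b : σ → S⟦X⟧} (ha : ∀ l j, ¬ D j → coeff j (a l) = 0)
    (hb : ∀ l j, ¬ D j → coeff j (b l) = 0) (l : σ) (j : ℕ) (hj : ¬ D j) :
    coeff j (mix p a b l) = 0 := by
  unfold mix
  rw [map_add, coeff_lf, coeff_lf]
  have h1 : (fun l => coeff j (a l)) = 0 := funext fun l => ha l j hj
  have h2 : (fun l => coeff j (b l)) = 0 := funext fun l => hb l j hj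
  rw [h1, h2]
  unfold lf
  simp

end ser

theorem ncard_Dj (σ : Type) [Fintype σ] (M : ℕ) : (Dj σ M).ncard = Fintype.card σ * M := by
  have h : Dj σ M = Set.univ ×ˢ Set.Icc 1 M := by
    ext ⟨l, j⟩
    simp [Dj]
  rw [h, Set.ncard_prod, Set.ncard_univ, Nat.card_eq_fintype_card]
  congr 1
  rw [← Finset.coe_Icc, Set.ncard_coe_finset]
  simp

theorem mix_mem {k : Type} [Field k] {σ : Type} [Fintype σ] [DecidableEq σ] {S : Type}
    [CommRing S] [Algebra k S] {D : Set (σ × ℕ)} {M : ℕ} (p : Matrix σ σ k)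
    {a b : σ → S⟦X⟧} (ha : ∀ i j, (i, j) ∉ Dj σ M → coeff j (a i) = 0)
    (hb : ∀ i j, (i, j) ∉ Dj σ M → coeff j (b i) = 0) (i : σ) (j : ℕ) (hj : (i, j) ∉ Dj σ M) :
    coeff j (mix p a b i) = 0 :=
  mix_coeff (D := fun j => 1 ≤ j ∧ j ≤ M) p (fun l j hj => ha l j hj) (fun l j hj => hb l j hj)
    i j hj

theorem dbl (hpim : PimStmt) : DblStmt := by
  intro k _ σ ι _ _ β wβ R _ L0 χ L m A B hAB hd Y hY wu u M ω θ h h'
  classical
  obtain ⟨p, hp, hA, hB⟩ := hpim k σ ι L A B hd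
  rw [← ncard_Dj, ← times_ser χ (FT_JJ L m (A ∪ B) M ω θ hY u h) (Dj_finite M) (fun _ : σ => θ) ω]
  refine χ.iso ((FT_JJ L m (A ∪ B) M ω θ hY u h).prod (FT.ser (Dj_finite M) _ _)) ?_
  refine OIso.mk'
    (fun S _ _ x => ⟨((x.1.1.1, ⟨mix p x.1.1.2.1 x.2.1, mix_mem (D := ∅) p x.1.1.2.2 x.2.2⟩),
      ⟨mix p x.2.1 x.1.1.2.1, mix_mem (D := ∅) p x.2.2 x.1.1.2.2⟩), ?_⟩)
    (fun S _ _ x => (⟨(x.1.1.1, ⟨mix p x.1.1.2.1 x.1.2.1, mix_mem (D := ∅) p x.1.1.2.2 x.1.2.2⟩),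
      ?_⟩, ⟨mix p x.1.2.1 x.1.1.2.1, mix_mem (D := ∅) p x.1.2.2 x.1.1.2.2⟩)) ?_ ?_ ?_ ?_
  · show IsT M (C (u.fn x.1.1.1) * (pp L m A (mix p x.1.1.2.1 x.2.1)
      * pp L m B (mix p x.2.1 x.1.1.2.1)))
    rw [pp_union L m hAB hA hB]
    exact x.1.2
  · show IsT M (C (u.fn x.1.1.1) * pp L m (A ∪ B) (mix p x.1.1.2.1 x.1.2.1))
    rw [← pp_union L m hAB hA hB (mix p x.1.1.2.1 x.1.2.1) (mix p x.1.2.1 x.1.1.2.1),
      mix_mix hp, mix_mix hp]
    exact x.2
  · rintro S _ _ ⟨⟨⟨y, ⟨a, ha⟩⟩, hx⟩, ⟨b, hb⟩⟩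
    refine Prod.ext (Subtype.ext (Prod.ext rfl (Subtype.ext ?_))) (Subtype.ext ?_)
    · exact mix_mix hp a b
    · exact mix_mix hp b a
  · rintro S _ _ ⟨⟨⟨y, ⟨a, ha⟩⟩, ⟨b, hb⟩⟩, hx⟩
    refine Subtype.ext (Prod.ext (Prod.ext rfl (Subtype.ext ?_)) (Subtype.ext ?_))
    · exact mix_mix hp a b
    · exact mix_mix hp b a
  · rintro S S' _ _ _ _ φ c ⟨⟨⟨y, ⟨a, ha⟩⟩, hx⟩, ⟨b, hb⟩⟩
    refine Subtype.ext (Prod.ext (Prod.ext rfl (Subtype.ext ?_)) (Subtype.ext ?_))
    · exact mix_tw p θ ω φ c a b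
    · exact mix_tw p θ ω φ c b a
  · intro S _ _ x b
    rfl

end Pool.Agent.NDM.H88
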