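import Pool.Agent.Helper78_NDM.Stmts

/-!
# NDM, module PIM: a projection which separates independent sets of forms
-/

set_option autoImplicit false

namespace Pool.Agent.NDM.H88

open Finset

theorem pim : PimStmt := by
  intro k _ σ ι _ _ L A B hd
  obtain ⟨V, hV, hc⟩ := Disjoint.exists_isCompl hd.symm
  have hc' : IsCompl (spn L A) V := hc.symm
  set f : (σ → k) →ₗ[k] (σ → k) := (spn L A).subtype ∘ₗ Submodule.projectionOnto _ _ hc'
    with hf
  have h1 : ∀ x ∈ spn L A, f x = x := by
    intro x hx
    have := Submodule.projectionOnto_apply_left hc' ⟨x, hx⟩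
    show ((Submodule.projectionOnto _ _ hc' x : spn L A) : σ → k) = x
    rw [this]
  have h2 : ∀ x ∈ V, f x = 0 := by
    intro x hx
    simp only [hf, LinearMap.comp_apply, Submodule.subtype_apply]
    rw [Submodule.projectionOnto_apply_of_mem_right hc' hx]
    rfl
  have h3 : f ∘ₗ f = f := by
    apply LinearMap.ext
    intro y
    exact h1 _ (Submodule.coe_mem _)
  refine ⟨(LinearMap.toMatrix' f).transpose, ?_, ?_, ?_⟩
  · rw [← Matrix.transpose_mul, ← LinearMap.toMatrix'_comp, h3]
  · intro i hi
    rw [Matrix.vecMul_transpose, LinearMap.toMatrix'_mulVec]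
    exact h1 _ (Submodule.subset_span ⟨i, hi, rfl⟩)
  · intro i hi
    rw [Matrix.vecMul_transpose, LinearMap.toMatrix'_mulVec]
    exact h2 _ (hV (Submodule.subset_span ⟨i, hi, rfl⟩))

end Pool.Agent.NDM.H88
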